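import Mathlib
import Pool.Agent.H509R3.Yao.Exist

/-!
# Algebraicity on the power series side implies algebraicity in the completion
-/

set_option autoImplicit false
set_option linter.unusedSectionVars false
open PowerSeries Filter Topology IsDedekindDomain

namespace Pool.Agent.Y717.Yao
open Pool.Agent.H509R3.Yao

universe u

lemma alg_comp {A B L : Type*} [CommRing A] [IsDomain A] [CommRing B] [IsDomain B] [CommRing L] [IsDomain L]
    (ψ : A →+* B) (hψ : Function.Injective ψ) (hint : ψ.IsIntegral) (χ : B →+* L)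
    (hχ : Function.Injective χ) (f : L) (hf : ∃ P : Polynomial B, P ≠ 0 ∧ P.eval₂ χ f = 0) :
    ∃ P : Polynomial A, P ≠ 0 ∧ P.eval₂ (χ.comp ψ) f = 0 := by
  let : Algebra A B := ψ.toAlgebra
  let : Algebra B L := χ.toAlgebra
  let : Algebra A L := (χ.comp ψ).toAlgebra
  have : IsScalarTower A B L := IsScalarTower.of_algebraMap_eq (fun x => rfl)
  have : Module.IsTorsionFree A B := by
    rw [Module.isTorsionFree_iff_algebraMap_injective]; exact hψ
  have : Module.IsTorsionFree B L := by
    rw [Module.isTorsionFree_iff_algebraMap_injective]; exact hχ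
  have : Algebra.IsIntegral A B := ⟨fun x => hint x⟩
  have : Algebra.IsAlgebraic A B := inferInstance
  have h1 : IsAlgebraic B f := by
    obtain ⟨P, hP0, hP⟩ := hf
    exact ⟨P, hP0, hP⟩
  have h2 : IsAlgebraic A f := h1.restrictScalars A
  obtain ⟨P, hP0, hP⟩ := h2
  exact ⟨P, hP0, hP⟩

section
variable {F E : Type*} [Field F] [Fintype F] [Field E] [Finite E] [Algebra F E]

/-- `t ↦ X + ω` -/
noncomputable def psi (ω : E) : Polynomial F →+* Polynomial E :=
  (Polynomial.taylorAlgHom ω).toRingHom.comp (Polynomial.mapRingHom (algebraMap F E))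

lemma psi_integral (ω : E) : (psi (F := F) ω).IsIntegral := by
  have : Fintype E := Fintype.ofFinite E
  have hC : ∀ e : E, (psi (F := F) ω).IsIntegralElem (Polynomial.C e) := by
    intro e
    refine ⟨Polynomial.X ^ (Fintype.card E) - Polynomial.X, ?_, ?_⟩
    · apply Polynomial.monic_X_pow_sub
      simpa using (Nat.one_lt_cast (α := WithBot ℕ)).mpr (Fintype.one_lt_card (α := E))
    · rw [Polynomial.eval₂_sub, Polynomial.eval₂_X_pow, Polynomial.eval₂_X, ← Polynomial.C_pow,
        FiniteField.pow_card, sub_self]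
  have hX : (psi (F := F) ω).IsIntegralElem (Polynomial.X : Polynomial E) := by
    have h1 : (Polynomial.X : Polynomial E) = psi (F := F) ω Polynomial.X - Polynomial.C ω := by
      unfold psi
      simp
    rw [h1]
    exact ((psi (F := F) ω).isIntegralElem_map).sub _ (hC ω)
  intro Q
  induction Q using Polynomial.induction_on' with
  | add p q hp hq => exact hp.add _ hq
  | monomial n a =>
    rw [← Polynomial.C_mul_X_pow_eq_monomial]
    apply (hC a).mul
    induction n with
    | zero => rw [pow_zero]; exact RingHom.isIntegralElem_one _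
    | succ n ih => rw [pow_succ]; exact ih.mul _ hX

theorem transport_back (v : Polynomial F) (hirr : Irreducible v)
    (vv : HeightOneSpectrum (Polynomial F)) (hvv : vv.asIdeal = Ideal.span {v})
    (x : ℕ → Polynomial F) (Pi : vv.adicCompletion (RatFunc F))
    (hPi : Tendsto (fun N => algebraMap (Polynomial F) (vv.adicCompletion (RatFunc F)) (x N)) atTop (𝓝 Pi))
    (ω : E) (h0 : Polynomial.aeval ω v = 0) (hker : ∀ P : Polynomial F, Polynomial.aeval ω P = 0 → v ∣ P)
    (f : E⟦X⟧) (hf : Lim (fun N => phi ω (x N)) f) (halg : IsAlgebraic (Polynomial E) f) :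
    IsAlgebraic (RatFunc F) Pi := by
  rw [← IsFractionRing.isAlgebraic_iff (Polynomial F) (RatFunc F) (vv.adicCompletion (RatFunc F))]
  have hψinj : Function.Injective (psi (F := F) ω) := by
    intro a b hab
    apply phi_inj (F := F) ω
    change ((psi (F := F) ω a : Polynomial E) : E⟦X⟧) = ((psi (F := F) ω b : Polynomial E) : E⟦X⟧)
    rw [hab]
  obtain ⟨P, hP0, hP⟩ := alg_comp (psi (F := F) ω) hψinj (psi_integral ω)
    (Polynomial.coeToPowerSeries.ringHom (R := E)) (Polynomial.coe_injective E) f (by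
      obtain ⟨Q, hQ0, hQ⟩ := halg
      exact ⟨Q, hQ0, hQ⟩)
  have hz : (P.map (phi ω)).eval f = 0 := by
    rw [Polynomial.eval_map]
    exact hP
  have hlim := lim_eval P ω x f hf
  rw [hz] at hlim
  have hdiv : ∀ e : ℕ, ∃ N0, ∀ N ≥ N0, v ^ e ∣ P.eval (x N) := by
    intro e
    obtain ⟨N0, hN0⟩ := hlim e
    refine ⟨N0, fun N hN => ?_⟩
    have h1 := hN0 N hN
    rw [zero_sub, dvd_neg] at h1
    exact v_dvd_of_phi v hirr ω h0 hker e _ h1
  have ht0 := tendsto_zero_of_dvd v vv hvv (fun N => P.eval (x N)) hdiv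
  have hcont : Continuous (fun y : vv.adicCompletion (RatFunc F) => Polynomial.aeval y P) :=
    Polynomial.continuous_aeval P
  have ht := (hcont.tendsto Pi).comp hPi
  refine ⟨P, hP0, ?_⟩
  refine tendsto_nhds_unique ht ?_
  refine ht0.congr (fun N => ?_)
  rw [Function.comp_apply, Polynomial.aeval_algebraMap_apply]
  rfl

end

/-- the value with bounded exponents is algebraic iff the exponents are ultimately periodic -/
theorem bounded_iff {F : Type u} [Field F] [Fintype F] (p : ℕ) [Fact p.Prime] [CharP F p]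
    (v : Polynomial F) (hv : v.Monic)
    (hirr : Irreducible v) (vv : HeightOneSpectrum (Polynomial F)) (hvv : vv.asIdeal = Ideal.span {v})
    (a : ℕ → ℕ) (B : ℕ) (ha : ∀ j, a j < B) (Pi : vv.adicCompletion (RatFunc F))
    (hPi : Tendsto (fun N => ∏ j ∈ Finset.range N, (algebraMap (Polynomial F) (vv.adicCompletion (RatFunc F)) (-(Dv v j))) ^ a j)
      atTop (𝓝 Pi)) :
    IsAlgebraic (RatFunc F) Pi ↔ ∃ J, ∀ j ≥ J, a (j + v.natDegree) = a j := by
  obtain ⟨k, hk, hcard⟩ := card_eq_pow (F := F) p
  obtain ⟨E, iE, finE, algE, charE, ω, h0, hker, hE⟩ := setup_E p v hv hirr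
  obtain ⟨hω, hunit, hlim⟩ := facts_E p k hk hcard v hv hirr ω h0 hker hE
  obtain ⟨f, hf⟩ := exists_lim_prod (aj v ω) hlim a
  have hPi' : Tendsto (fun N => algebraMap (Polynomial F) (vv.adicCompletion (RatFunc F))
      (∏ j ∈ Finset.range N, (-(Dv v j)) ^ a j)) atTop (𝓝 Pi) := by
    simpa only [map_prod, map_pow] using hPi
  have hf' : Lim (fun N => phi ω (∏ j ∈ Finset.range N, (-(Dv v j)) ^ a j)) f := by
    have : (fun N => phi ω (∏ j ∈ Finset.range N, (-(Dv v j)) ^ a j)) = (fun N => ∏ j ∈ Finset.range N, (aj v ω j) ^ a j) := by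
      funext N
      rw [map_prod]
      apply Finset.prod_congr rfl
      intro j _
      rw [map_pow, map_neg]; rfl
    rw [this]; exact hf
  constructor
  · intro halg
    have hfalg : IsAlgebraic (Polynomial E) f := transport v vv hvv _ Pi hPi' halg ω h0 f hf'
    refine final_E p k ω hk hcard v hv v.natDegree rfl hirr.natDegree_pos hω hunit hlim B a (fun j => ?_) f hfalg hf
    exact lt_trans (ha j) (Nat.lt_pow_self (Fact.out : p.Prime).one_lt)
  · intro hper
    refine transport_back v hirr vv hvv _ Pi hPi' ω h0 hker f hf' ?_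
    exact per_alg p k ω hk hcard v hv v.natDegree rfl hirr.natDegree_pos hω hunit hlim a hper f hf

end Pool.Agent.Y717.Yao
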