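import Mathlib
import Pool.Agent.Y717.Yao.A

/-!
# Integer monomials in the values
-/

set_option autoImplicit false
set_option linter.unusedSectionVars false
open PowerSeries Filter Topology IsDedekindDomain

namespace Pool.Agent.Y717.Yao
open Pool.Agent.H509R3.Yao

universe u

variable {F : Type u} [Field F]

/-- if the images of polynomials tend to `0`, they are eventually divisible by `v` -/
lemma dvd_of_tendsto_zero (v : Polynomial F) (vv : HeightOneSpectrum (Polynomial F))
    (hvv : vv.asIdeal = Ideal.span {v}) (z : ℕ → Polynomial F)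
    (hz : Tendsto (fun N => algebraMap (Polynomial F) (vv.adicCompletion (RatFunc F)) (z N)) atTop (𝓝 0)) :
    ∃ N0, ∀ N ≥ N0, v ∣ z N := by
  have hopen : IsOpen {y : vv.adicCompletion (RatFunc F) | Valued.v y < Valued.v (1 : vv.adicCompletion (RatFunc F))} := by
    have h0 := Valued.isOpen_ball (vv.adicCompletion (RatFunc F)) (Valued.v.restrict (1 : vv.adicCompletion (RatFunc F)))
    simpa only [Valuation.restrict_lt_iff] using h0
  have hmem : (0 : vv.adicCompletion (RatFunc F)) ∈ {y : vv.adicCompletion (RatFunc F) | Valued.v y < Valued.v (1 : vv.adicCompletion (RatFunc F))} := by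
    rw [Set.mem_setOf_eq, map_one, map_zero]
    exact zero_lt_one
  have hev := hz.eventually (hopen.mem_nhds hmem)
  rw [Filter.eventually_atTop] at hev
  obtain ⟨N0, hN0⟩ := hev
  refine ⟨N0, fun N hN => ?_⟩
  have h1 := hN0 N hN
  rw [map_one] at h1
  have h2 : Valued.v (algebraMap (Polynomial F) (vv.adicCompletion (RatFunc F)) (z N)) = vv.intValuation (z N) := by
    rw [IsDedekindDomain.HeightOneSpectrum.algebraMap_adicCompletion]
    rw [Function.comp_apply, IsDedekindDomain.HeightOneSpectrum.adicCompletion.valued_coe,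
      IsDedekindDomain.HeightOneSpectrum.valuation_of_algebraMap]
  rw [h2, HeightOneSpectrum.intValuation_lt_one_iff_mem, hvv, Ideal.mem_span_singleton] at h1
  exact h1

/-- values are nonzero -/
lemma value_ne_zero [Fintype F] (v : Polynomial F)
    (hirr : Irreducible v) (vv : HeightOneSpectrum (Polynomial F)) (hvv : vv.asIdeal = Ideal.span {v})
    (a : ℕ → ℕ) (Pi : vv.adicCompletion (RatFunc F))
    (hPi : Tendsto (fun N => ∏ j ∈ Finset.range N, (algebraMap (Polynomial F) (vv.adicCompletion (RatFunc F)) (-(Dv v j))) ^ a j)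
      atTop (𝓝 Pi)) : Pi ≠ 0 := by
  rintro rfl
  have hPi' : Tendsto (fun N => algebraMap (Polynomial F) (vv.adicCompletion (RatFunc F))
      (∏ j ∈ Finset.range N, (-(Dv v j)) ^ a j)) atTop (𝓝 0) := by
    simpa only [map_prod, map_pow] using hPi
  obtain ⟨N0, hN0⟩ := dvd_of_tendsto_zero v vv hvv _ hPi'
  obtain ⟨j, -, hj⟩ := hirr.prime.exists_mem_finset_dvd (hN0 N0 le_rfl)
  have h1 := hirr.prime.dvd_of_dvd_pow hj
  exact not_dvd_Dv v hirr j ((dvd_neg).mp h1)

lemma prod_zpow_sum {L ι : Type*} [Field L] {u : L} (hu : u ≠ 0) (s : Finset ι) (f : ι → ℤ) :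
    ∏ i ∈ s, u ^ f i = u ^ (∑ i ∈ s, f i) := by
  classical
  induction s using Finset.induction_on with
  | empty => simp
  | insert i s hi ih => rw [Finset.prod_insert hi, Finset.sum_insert hi, zpow_add₀ hu, ih]

theorem monomial_iff [Fintype F] (p : ℕ) [Fact p.Prime] [CharP F p]
    (v : Polynomial F) (hv : v.Monic)
    (hirr : Irreducible v) (vv : HeightOneSpectrum (Polynomial F)) (hvv : vv.asIdeal = Ideal.span {v})
    {ι : Type*} [Fintype ι] (a : ι → ℕ → ℕ) (B : ℕ) (ha : ∀ i j, a i j < B) (m : ι → ℤ)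
    (x : ι → vv.adicCompletion (RatFunc F))
    (hx : ∀ i, Tendsto (fun N => ∏ j ∈ Finset.range N, (algebraMap (Polynomial F) (vv.adicCompletion (RatFunc F)) (-(Dv v j))) ^ a i j)
      atTop (𝓝 (x i))) :
    IsAlgebraic (RatFunc F) (∏ i, x i ^ m i) ↔
      ∃ J, ∀ j ≥ J, ∑ i, m i * (a i (j + v.natDegree) : ℤ) = ∑ i, m i * (a i j : ℤ) := by
  classical
  set u : ℕ → vv.adicCompletion (RatFunc F) := fun j => algebraMap (Polynomial F) (vv.adicCompletion (RatFunc F)) (-(Dv v j)) with hu
  have hu0 : ∀ j, u j ≠ 0 := by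
    intro j
    have h1 : (Dv v j) ≠ 0 := fun h => not_dvd_Dv v hirr j (h ▸ dvd_zero v)
    have hinj : Function.Injective (algebraMap (Polynomial F) (vv.adicCompletion (RatFunc F))) := by
      rw [IsScalarTower.algebraMap_eq (Polynomial F) (RatFunc F) (vv.adicCompletion (RatFunc F))]
      exact (algebraMap (RatFunc F) (vv.adicCompletion (RatFunc F))).injective.comp (IsFractionRing.injective (Polynomial F) (RatFunc F))
    intro h
    rw [hu] at h
    have h2 := hinj (h.trans (map_zero _).symm)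
    exact h1 (neg_eq_zero.mp h2)
  set C : ℕ := ∑ i, (m i).natAbs * B with hC
  have hb0 : ∀ j, 0 ≤ (C : ℤ) + ∑ i, m i * (a i j : ℤ) := by
    intro j
    have h1 : (C : ℤ) = ∑ i, ((m i).natAbs : ℤ) * (B : ℤ) := by rw [hC]; push_cast; rfl
    rw [h1, ← Finset.sum_add_distrib]
    apply Finset.sum_nonneg
    intro i _
    have h2 := ha i j
    have h3 : -((m i).natAbs : ℤ) ≤ m i := by omega
    have h4 : ((a i j : ℕ) : ℤ) ≤ (B : ℤ) := by exact_mod_cast h2.le
    have h5 : (0 : ℤ) ≤ (a i j : ℤ) := by positivity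
    nlinarith [Int.natCast_nonneg (m i).natAbs]
  set b : ℕ → ℕ := fun j => ((C : ℤ) + ∑ i, m i * (a i j : ℤ)).toNat with hb
  have hbz : ∀ j, ((b j : ℕ) : ℤ) = (C : ℤ) + ∑ i, m i * (a i j : ℤ) := fun j => Int.toNat_of_nonneg (hb0 j)
  have hbB : ∀ j, b j < 2 * C + 1 := by
    intro j
    have h0 := hbz j
    have h1 : ∑ i, m i * (a i j : ℤ) ≤ (C : ℤ) := by
      have h1 : (C : ℤ) = ∑ i, ((m i).natAbs : ℤ) * (B : ℤ) := by rw [hC]; push_cast; rfl
      rw [h1]
      apply Finset.sum_le_sum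
      intro i _
      have h2 := ha i j
      have h3 : m i ≤ ((m i).natAbs : ℤ) := by omega
      have h4 : ((a i j : ℕ) : ℤ) ≤ (B : ℤ) := by exact_mod_cast h2.le
      have h5 : (0 : ℤ) ≤ (a i j : ℤ) := by positivity
      nlinarith [Int.natCast_nonneg (m i).natAbs]
    omega
  obtain ⟨y, hy⟩ := exists_Pi v hv hirr vv hvv (fun _ => C)
  have hy0 : y ≠ 0 := value_ne_zero v hirr vv hvv _ y hy
  have hyalg : IsAlgebraic (RatFunc F) y :=
    (bounded_iff p v hv hirr vv hvv (fun _ => C) (C + 1) (fun _ => Nat.lt_succ_self C) y hy).mpr ⟨0, fun _ _ => rfl⟩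
  have hx0 : ∀ i, x i ≠ 0 := fun i => value_ne_zero v hirr vv hvv (a i) (x i) (hx i)
  have hlim : Tendsto (fun N => ∏ j ∈ Finset.range N, u j ^ b j) atTop (𝓝 (y * ∏ i, x i ^ m i)) := by
    have h1 : Tendsto (fun N => (∏ j ∈ Finset.range N, u j ^ C) * ∏ i, (∏ j ∈ Finset.range N, u j ^ a i j) ^ m i)
        atTop (𝓝 (y * ∏ i, x i ^ m i)) := by
      apply hy.mul
      apply tendsto_finsetProd
      intro i _
      exact (Filter.Tendsto.zpow₀ (hx i) (m i) (Or.inl (hx0 i)))
    refine h1.congr (fun N => ?_)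
    have h2 : ∀ i, (∏ j ∈ Finset.range N, u j ^ a i j) ^ m i = ∏ j ∈ Finset.range N, u j ^ (m i * (a i j : ℤ)) := by
      intro i
      rw [← Finset.prod_zpow]
      apply Finset.prod_congr rfl
      intro j _
      rw [← zpow_natCast, ← zpow_mul, mul_comm]
    simp only [h2]
    rw [Finset.prod_comm, ← Finset.prod_mul_distrib]
    apply Finset.prod_congr rfl
    intro j _
    rw [← zpow_natCast (u j) (b j), hbz j, zpow_add₀ (hu0 j), zpow_natCast, prod_zpow_sum (hu0 j)]
  have hmain := bounded_iff p v hv hirr vv hvv b (2 * C + 1) hbB _ hlim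
  have halg : IsAlgebraic (RatFunc F) (∏ i, x i ^ m i) ↔ IsAlgebraic (RatFunc F) (y * ∏ i, x i ^ m i) := by
    constructor
    · intro h; exact hyalg.mul h
    · intro h
      exact IsAlgebraic.of_mul (mem_nonZeroDivisors_of_ne_zero hy0) hyalg h
  rw [halg, hmain]
  constructor
  · rintro ⟨J, hJ⟩
    refine ⟨J, fun j hj => ?_⟩
    have h1 := hJ j hj
    have h2 := hbz (j + v.natDegree)
    have h3 := hbz j
    rw [h1] at h2
    linarith
  · rintro ⟨J, hJ⟩
    refine ⟨J, fun j hj => ?_⟩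
    have h1 := hJ j hj
    have h2 := hbz (j + v.natDegree)
    have h3 := hbz j
    rw [h1] at h2
    exact_mod_cast h2.trans h3.symm

end Pool.Agent.Y717.Yao
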